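import Mathlib
import Pool.Agent.H770R2.Kad.HProps

/-!
Choice of the ultrafilter of central projections (H_ult).
-/

open scoped ComplexOrder InnerProductSpace

noncomputable section

namespace H770R2.Kad

open H759R2.Kad

universe u v

namespace AULT

section gen

variable {A : Type u} [CStarAlgebra A]
variable {H : Type v} [NormedAddCommGroup H] [InnerProductSpace ℂ H] [CompleteSpace H]

/-- central projections -/
def CPg (p : A) : Prop := star p = p ∧ p * p = p ∧ ∀ a, p * a = a * p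

theorem CPg.mul {p q : A} (hp : CPg p) (hq : CPg q) : CPg (p * q) := by
  refine ⟨?_, ?_, ?_⟩
  · rw [star_mul, hp.1, hq.1, hq.2.2]
  · calc p * q * (p * q) = p * (q * p) * q := by noncomm_ring
      _ = p * (p * q) * q := by rw [hq.2.2 p]
      _ = (p * p) * (q * q) := by noncomm_ring
      _ = p * q := by rw [hp.2.1, hq.2.1]
  · intro a
    rw [mul_assoc, hq.2.2 a, ← mul_assoc, hp.2.2 a, mul_assoc]

theorem CPg.one_sub {p : A} (hp : CPg p) : CPg (1 - p) := by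
  refine ⟨?_, ?_, ?_⟩
  · rw [star_sub, star_one, hp.1]
  · have := hp.2.1
    calc (1 - p) * (1 - p) = 1 - p - p + p * p := by noncomm_ring
      _ = 1 - p := by rw [this]; abel
  · intro a
    rw [sub_mul, mul_sub, hp.2.2 a, one_mul, mul_one]

theorem CPg.one : CPg (1 : A) := ⟨star_one _, one_mul _, fun a => by rw [one_mul, mul_one]⟩

theorem norm_one_le : ‖(1 : A)‖ ≤ 1 := by
  rcases subsingleton_or_nontrivial A with h | h
  · rw [Subsingleton.elim (1 : A) 0, norm_zero]; exact zero_le_one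
  · exact (CStarRing.norm_one (E := A)).le

theorem norm_le_one_of {g : A} (h : star g * g = 1) : ‖g‖ ≤ 1 := by
  have h1 : ‖g‖ * ‖g‖ ≤ 1 := by
    rw [← CStarRing.norm_star_mul_self, h]; exact norm_one_le
  nlinarith [norm_nonneg g]

theorem CPg.norm_le {p : A} (hp : CPg p) : ‖p‖ ≤ 1 := by
  have h1 : ‖p‖ * ‖p‖ = ‖p‖ := by
    rw [← CStarRing.norm_star_mul_self, hp.1, hp.2.1]
  by_contra h
  push Not at h
  nlinarith

/-- the remainder `∏ (1 - p)` -/
def rem : List A → A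
  | [] => 1
  | p :: ps => (1 - p) * rem ps

theorem rem_CPg : ∀ ps : List A, (∀ p ∈ ps, CPg p) → CPg (rem ps)
  | [], _ => CPg.one
  | p :: ps, h => ((h p (by simp)).one_sub).mul (rem_CPg ps (fun q hq => h q (by simp [hq])))

theorem rem_append : ∀ ps qs : List A, rem (ps ++ qs) = rem ps * rem qs
  | [], qs => by simp [rem]
  | p :: ps, qs => by
    rw [List.cons_append, rem, rem, rem_append ps qs, mul_assoc]

variable (W : A →ₗ[ℂ] (H →L[ℂ] H)) (m : ℕ)

/-- diagonal operator of `W a` -/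
def D (a : A) : HH (Fin m) H →L[ℂ] HH (Fin m) H := dg m (W a)

theorem D_apply (a : A) (v : HH (Fin m) H) (i : Fin m) : D W m a v i = W a (v i) := dg_apply _ _ _ _

theorem D_add (a b : A) : D W m (a + b) = D W m a + D W m b := by
  ext v i
  rw [D_apply, add_apply, PiLp.add_apply, D_apply, D_apply, map_add]
  rfl

theorem D_neg (a : A) : D W m (-a) = - D W m a := by
  ext v i
  rw [D_apply, neg_apply, PiLp.neg_apply, D_apply, map_neg]
  rfl

variable {W} {m}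

theorem D_mul (hW : IsHom W) (a b : A) : D W m (a * b) = D W m a * D W m b := by
  ext v i
  rw [D_apply, hW.mul]
  change W a (W b (v i)) = (D W m a (D W m b v)) i
  rw [D_apply, D_apply]

theorem D_one (hW : IsHom W) : D W m 1 = 1 := by
  ext v i
  rw [D_apply, hW.one]
  rfl

theorem D_norm {c : ℝ} (hc : 0 ≤ c) (hb : ∀ a, ‖W a‖ ≤ c * ‖a‖) (a : A) (v : HH (Fin m) H) :
    ‖D W m a v‖ ≤ c * ‖a‖ * ‖v‖ := by
  have hs : ‖D W m a v‖ ^ 2 ≤ (c * ‖a‖ * ‖v‖) ^ 2 := by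
    rw [PiLp.norm_sq_eq_of_L2, mul_pow, PiLp.norm_sq_eq_of_L2, Finset.mul_sum]
    refine Finset.sum_le_sum fun i _ => ?_
    rw [D_apply, ← mul_pow]
    refine pow_le_pow_left₀ (norm_nonneg _) ?_ 2
    exact ((W a).le_opNorm _).trans (mul_le_mul_of_nonneg_right (hb a) (norm_nonneg _))
  exact (sq_le_sq₀ (norm_nonneg _) (by positivity)).1 hs

theorem D_comm (hW : IsHom W) {p : A} (hp : CPg p) (X : CStarMatrix (Fin m) (Fin m) A)
    (v : HH (Fin m) H) : D W m p (amp W (Fin m) X v) = amp W (Fin m) X (D W m p v) := by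
  ext i
  rw [D_apply, amp_apply, amp_apply, map_sum]
  refine Finset.sum_congr rfl fun j _ => ?_
  rw [D_apply]
  change (W p * W (X i j)) (v j) = (W (X i j) * W p) (v j)
  rw [← hW.mul, ← hW.mul, hp.2.2]

/-- the square sum of the pieces -/
def N (W : A →ₗ[ℂ] (H →L[ℂ] H)) (m : ℕ) (v : HH (Fin m) H) : A → List A → ℝ
  | _, [] => 0
  | r, p :: ps => ‖D W m (r * p) v‖ ^ 2 + N W m v (r * (1 - p)) ps

theorem exists_sign {E : Type*} [NormedAddCommGroup E] [InnerProductSpace ℂ E] (x y : E) :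
    ‖x‖ ^ 2 + ‖y‖ ^ 2 ≤ ‖x + y‖ ^ 2 ∨ ‖x‖ ^ 2 + ‖y‖ ^ 2 ≤ ‖-x + y‖ ^ 2 := by
  have h1 := norm_add_sq (𝕜 := ℂ) x y
  have h2 := norm_add_sq (𝕜 := ℂ) (-x) y
  rw [norm_neg, inner_neg_left, map_neg] at h2
  rcases le_total 0 (RCLike.re ⟪x, y⟫_ℂ) with h | h
  · left; rw [h1]; linarith
  · right; rw [h2]; linarith

theorem exists_sign' {E : Type*} [NormedAddCommGroup E] [InnerProductSpace ℂ E] (x y : E) :
    ‖x + y‖ ^ 2 ≤ ‖x‖ ^ 2 + ‖y‖ ^ 2 ∨ ‖-x + y‖ ^ 2 ≤ ‖x‖ ^ 2 + ‖y‖ ^ 2 := by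
  have h1 := norm_add_sq (𝕜 := ℂ) x y
  have h2 := norm_add_sq (𝕜 := ℂ) (-x) y
  rw [norm_neg, inner_neg_left, map_neg] at h2
  rcases le_total 0 (RCLike.re ⟪x, y⟫_ℂ) with h | h
  · right; rw [h2]; linarith
  · left; rw [h1]; linarith

/-- algebra of one step -/
theorem step_alg {r p g : A} (hr : CPg r) (hp : CPg p) (hg1 : star g = g)
    (hg3 : g * (r * (1 - p)) = g) {w : A} (hg2 : g * g = r * (1 - p) - r * (1 - p) * w)
    (s : A) (hs : s = r * p ∨ s = -(r * p)) :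
    star (s + g) = s + g ∧ (s + g) * r = s + g ∧
      (s + g) * (s + g) = r - r * ((1 - p) * w) := by
  have hrp := hr.mul hp
  have hq := hr.mul hp.one_sub
  have hss : star s = s := by
    rcases hs with rfl | rfl
    · exact hrp.1
    · rw [star_neg, hrp.1]
  have hs2 : s * s = r * p := by
    rcases hs with rfl | rfl
    · exact hrp.2.1
    · rw [neg_mul_neg]; exact hrp.2.1
  have horth : (r * (1 - p)) * (r * p) = 0 := by
    calc (r * (1 - p)) * (r * p) = r * ((1 - p) * r) * p := by noncomm_ring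
      _ = r * (r * (1 - p)) * p := by rw [hp.one_sub.2.2 r]
      _ = r * r * (p - p * p) := by noncomm_ring
      _ = 0 := by rw [hp.2.1, sub_self, mul_zero]
  have hgs : g * s = 0 := by
    have h0 : g * (r * p) = 0 := by
      rw [← hg3, mul_assoc, horth, mul_zero]
    rcases hs with rfl | rfl
    · exact h0
    · rw [mul_neg, h0, neg_zero]
  have hsg : s * g = 0 := by
    have := congrArg star hgs
    rwa [star_mul, hg1, hss, star_zero] at this
  have hsr : s * r = s := by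
    have h0 : r * p * r = r * p := by
      rw [mul_assoc, hp.2.2 r, ← mul_assoc, hr.2.1]
    rcases hs with rfl | rfl
    · exact h0
    · rw [neg_mul, h0]
  have hgr : g * r = g := by
    have h0 : r * (1 - p) * r = r * (1 - p) := by
      rw [mul_assoc, hp.one_sub.2.2 r, ← mul_assoc, hr.2.1]
    calc g * r = g * (r * (1 - p)) * r := by rw [hg3]
      _ = g * (r * (1 - p) * r) := by rw [mul_assoc]
      _ = g := by rw [h0, hg3]
  refine ⟨by rw [star_add, hss, hg1], by rw [add_mul, hsr, hgr], ?_⟩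
  calc (s + g) * (s + g) = s * s + s * g + g * s + g * g := by noncomm_ring
    _ = r * p + (r * (1 - p) - r * (1 - p) * w) := by rw [hs2, hsg, hgs, hg2]; abel
    _ = r - r * ((1 - p) * w) := by noncomm_ring

theorem claimA (v : HH (Fin m) H) : ∀ ps : List A, (∀ p ∈ ps, CPg p) → ∀ r : A, CPg r →
    ∃ g : A, star g = g ∧ g * r = g ∧ g * g = r - r * rem ps ∧ N W m v r ps ≤ ‖D W m g v‖ ^ 2
  | [], _, r, hr => ⟨0, by simp, by simp, by simp [rem], by simp [N]⟩
  | p :: ps, h, r, hr => by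
    have hp := h p (by simp)
    obtain ⟨g, hg1, hg3, hg2, hN⟩ := claimA v ps (fun q hq => h q (by simp [hq])) (r * (1 - p))
      (hr.mul hp.one_sub)
    rcases exists_sign (D W m (r * p) v) (D W m g v) with hx | hx
    · obtain ⟨s1, s2, s3⟩ := step_alg hr hp hg1 hg3 hg2 (r * p) (Or.inl rfl)
      refine ⟨r * p + g, s1, s2, s3, ?_⟩
      rw [D_add, add_apply, N]
      linarith
    · obtain ⟨s1, s2, s3⟩ := step_alg hr hp hg1 hg3 hg2 (-(r * p)) (Or.inr rfl)
      refine ⟨-(r * p) + g, s1, s2, s3, ?_⟩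
      rw [D_add, D_neg, add_apply, neg_apply, N]
      linarith

theorem claimB (v : HH (Fin m) H) : ∀ ps : List A, (∀ p ∈ ps, CPg p) → ∀ r : A, CPg r →
    ∃ g : A, star g = g ∧ g * r = g ∧ g * g = r - r * rem ps ∧ ‖D W m g v‖ ^ 2 ≤ N W m v r ps
  | [], _, r, hr => ⟨0, by simp, by simp, by simp [rem], by
      have : D W m (0 : A) = 0 := by
        have := D_add W m (0 : A) 0
        rw [add_zero] at this
        simpa using this
      rw [this]; simp [N]⟩
  | p :: ps, h, r, hr => by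
    have hp := h p (by simp)
    obtain ⟨g, hg1, hg3, hg2, hN⟩ := claimB v ps (fun q hq => h q (by simp [hq])) (r * (1 - p))
      (hr.mul hp.one_sub)
    rcases exists_sign' (D W m (r * p) v) (D W m g v) with hx | hx
    · obtain ⟨s1, s2, s3⟩ := step_alg hr hp hg1 hg3 hg2 (r * p) (Or.inl rfl)
      refine ⟨r * p + g, s1, s2, s3, ?_⟩
      rw [D_add, add_apply, N]
      linarith
    · obtain ⟨s1, s2, s3⟩ := step_alg hr hp hg1 hg3 hg2 (-(r * p)) (Or.inr rfl)
      refine ⟨-(r * p) + g, s1, s2, s3, ?_⟩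
      rw [D_add, D_neg, add_apply, neg_apply, N]
      linarith

theorem claimC (hW : IsHom W) {c : ℝ} (hc : 0 ≤ c) (hb : ∀ a, ‖W a‖ ≤ c * ‖a‖)
    (X : CStarMatrix (Fin m) (Fin m) A) {κ : ℝ} (hκ : 0 ≤ κ) (v : HH (Fin m) H) :
    ∀ ps : List A, (∀ p ∈ ps, CPg p) → (∀ p ∈ ps, ‖D W m p * amp W (Fin m) X‖ ≤ κ) →
    ∀ r : A, CPg r → N W m (amp W (Fin m) X v) r ps ≤ (c * κ) ^ 2 * N W m v r ps
  | [], _, _, r, hr => by simp [N]
  | p :: ps, h, h2, r, hr => by
    have hp := h p (by simp)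
    have ih := claimC hW hc hb X hκ v ps (fun q hq => h q (by simp [hq]))
      (fun q hq => h2 q (by simp [hq])) (r * (1 - p)) (hr.mul hp.one_sub)
    rw [N, N, mul_add]
    refine add_le_add ?_ ih
    rw [← mul_pow]
    refine pow_le_pow_left₀ (norm_nonneg _) ?_ 2
    have hrp := hr.mul hp
    have e : D W m (r * p) (amp W (Fin m) X v) =
        D W m r ((D W m p * amp W (Fin m) X) (D W m (r * p) v)) := by
      have e1 : D W m (r * p) (amp W (Fin m) X v) =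
          D W m (r * p) (D W m (r * p) (amp W (Fin m) X v)) := by
        conv_lhs => rw [← hrp.2.1, D_mul hW]
        rfl
      rw [e1, D_comm hW hrp X v]
      generalize D W m (r * p) v = z
      rw [D_mul hW r p]
      rfl
    rw [e]
    calc ‖D W m r ((D W m p * amp W (Fin m) X) (D W m (r * p) v))‖ ≤
        c * ‖r‖ * ‖(D W m p * amp W (Fin m) X) (D W m (r * p) v)‖ := D_norm hc hb _ _
      _ ≤ c * 1 * (κ * ‖D W m (r * p) v‖) := by
          refine mul_le_mul (mul_le_mul_of_nonneg_left hr.norm_le hc) ?_ (norm_nonneg _)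
            (by positivity)
          exact (ContinuousLinearMap.le_opNorm _ _).trans
            (mul_le_mul_of_nonneg_right (h2 p (by simp)) (norm_nonneg _))
      _ = c * κ * ‖D W m (r * p) v‖ := by ring

/-- STEP 1 -/
theorem step1 (hW : IsHom W) {c : ℝ} (hc : 0 ≤ c) (hb : ∀ a, ‖W a‖ ≤ c * ‖a‖)
    (X : CStarMatrix (Fin m) (Fin m) A) {κ : ℝ} (hκ : 0 ≤ κ) (ps : List A)
    (h : ∀ p ∈ ps, CPg p) (h2 : ∀ p ∈ ps, ‖D W m p * amp W (Fin m) X‖ ≤ κ)
    (hrem : rem ps = 0) : ‖amp W (Fin m) X‖ ≤ c ^ 3 * κ := by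
  refine ContinuousLinearMap.opNorm_le_bound _ (by positivity) fun v => ?_
  set w := amp W (Fin m) X v with hw
  obtain ⟨g, hg1, _, hg2, hgN⟩ := claimB (W := W) w ps h 1 CPg.one
  obtain ⟨k, hk1, _, hk2, hkN⟩ := claimA (W := W) v ps h 1 CPg.one
  rw [hrem, mul_zero, sub_zero] at hg2 hk2
  have hgn : ‖g‖ ≤ 1 := norm_le_one_of (by rw [hg1, hg2])
  have hkn : ‖k‖ ≤ 1 := norm_le_one_of (by rw [hk1, hk2])
  have hC := claimC hW hc hb X hκ v ps h h2 1 CPg.one
  rw [← hw] at hC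
  have s1 : ‖w‖ ≤ c * ‖D W m g w‖ := by
    have e : w = D W m g (D W m g w) := by
      have : D W m g * D W m g = 1 := by rw [← D_mul hW, hg2, D_one hW]
      have := congrArg (fun T : HH (Fin m) H →L[ℂ] HH (Fin m) H => T w) this
      exact this.symm
    calc ‖w‖ = ‖D W m g (D W m g w)‖ := by rw [← e]
      _ ≤ c * ‖g‖ * ‖D W m g w‖ := D_norm hc hb _ _
      _ ≤ c * 1 * ‖D W m g w‖ := by gcongr
      _ = _ := by ring
  have s2 : ‖D W m k v‖ ≤ c * ‖v‖ := by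
    calc ‖D W m k v‖ ≤ c * ‖k‖ * ‖v‖ := D_norm hc hb _ _
      _ ≤ c * 1 * ‖v‖ := by gcongr
      _ = _ := by ring
  have s3 : ‖w‖ ^ 2 ≤ (c ^ 3 * κ * ‖v‖) ^ 2 := by
    calc ‖w‖ ^ 2 ≤ (c * ‖D W m g w‖) ^ 2 := pow_le_pow_left₀ (norm_nonneg _) s1 2
      _ = c ^ 2 * ‖D W m g w‖ ^ 2 := by ring
      _ ≤ c ^ 2 * N W m w 1 ps := mul_le_mul_of_nonneg_left hgN (by positivity)
      _ ≤ c ^ 2 * ((c * κ) ^ 2 * N W m v 1 ps) := mul_le_mul_of_nonneg_left hC (by positivity)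
      _ ≤ c ^ 2 * ((c * κ) ^ 2 * ‖D W m k v‖ ^ 2) := by gcongr
      _ ≤ c ^ 2 * ((c * κ) ^ 2 * (c * ‖v‖) ^ 2) := by gcongr
      _ = (c ^ 3 * κ * ‖v‖) ^ 2 := by ring
  exact (sq_le_sq₀ (norm_nonneg _) (by positivity)).1 s3

/-- STEP 2 -/
theorem step2 (hW : IsHom W) {c : ℝ} (hc : 0 ≤ c) (hb : ∀ a, ‖W a‖ ≤ c * ‖a‖)
    (X : CStarMatrix (Fin m) (Fin m) A) (hX : amp W (Fin m) X ≠ 0) (ps : List A)
    (h : ∀ p ∈ ps, CPg p)
    (h2 : ∀ p ∈ ps, c ^ 3 * ‖D W m p * amp W (Fin m) X‖ < ‖amp W (Fin m) X‖) : rem ps ≠ 0 := by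
  intro hrem
  have hK : 0 < ‖amp W (Fin m) X‖ := norm_pos_iff.2 hX
  have hex : ∀ ps : List A, (∀ p ∈ ps, c ^ 3 * ‖D W m p * amp W (Fin m) X‖ < ‖amp W (Fin m) X‖) →
      ∃ κ : ℝ, 0 ≤ κ ∧ c ^ 3 * κ < ‖amp W (Fin m) X‖ ∧
        ∀ p ∈ ps, ‖D W m p * amp W (Fin m) X‖ ≤ κ := by
    intro ps
    induction ps with
    | nil => intro _; exact ⟨0, le_rfl, by rw [mul_zero]; exact hK, by simp⟩
    | cons p ps ih =>
      intro h
      obtain ⟨κ, h1, h2, h3⟩ := ih (fun q hq => h q (by simp [hq]))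
      refine ⟨max κ ‖D W m p * amp W (Fin m) X‖, le_max_of_le_left h1, ?_, ?_⟩
      · rcases max_choice κ ‖D W m p * amp W (Fin m) X‖ with e | e
        · rw [e]; exact h2
        · rw [e]; exact h p (by simp)
      · intro q hq
        rcases List.mem_cons.1 hq with rfl | hq
        · exact le_max_right _ _
        · exact (h3 q hq).trans (le_max_left _ _)
  obtain ⟨κ, k1, k2, k3⟩ := hex ps h2
  have := step1 hW hc hb X k1 ps h k3 hrem
  linarith

/-- the general statement -/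
theorem ult_gen (hW : IsHom W) {c : ℝ} (hc : 0 ≤ c) (hb : ∀ a, ‖W a‖ ≤ c * ‖a‖)
    (X : CStarMatrix (Fin m) (Fin m) A) (hX : amp W (Fin m) X ≠ 0) :
    ∃ F : Set A, (∀ p ∈ F, CPg p) ∧ 1 ∈ F ∧ (∀ p ∈ F, ∀ q ∈ F, p * q ∈ F) ∧
      (∀ p, CPg p → p ∈ F ∨ 1 - p ∈ F) ∧ (0 : A) ∉ F ∧
      ∀ p ∈ F, ‖amp W (Fin m) X‖ ≤ c ^ 3 * ‖D W m p * amp W (Fin m) X‖ := by
  let Small : A → Prop := fun p =>
    CPg p ∧ c ^ 3 * ‖D W m p * amp W (Fin m) X‖ < ‖amp W (Fin m) X‖
  let Z : Set (Set A) := {F | (∀ p ∈ F, CPg p) ∧ 1 ∈ F ∧ (∀ p ∈ F, ∀ q ∈ F, p * q ∈ F) ∧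
    (0 : A) ∉ F}
  let S0 : Set A := {x | ∃ ps : List A, (∀ p ∈ ps, Small p) ∧ x = rem ps}
  have hS0 : S0 ∈ Z := by
    refine ⟨?_, ⟨[], by simp, rfl⟩, ?_, ?_⟩
    · rintro _ ⟨ps, h, rfl⟩
      exact rem_CPg ps (fun p hp => (h p hp).1)
    · rintro _ ⟨ps, h, rfl⟩ _ ⟨qs, h', rfl⟩
      refine ⟨ps ++ qs, ?_, (rem_append ps qs).symm⟩
      intro p hp
      rcases List.mem_append.1 hp with hp | hp
      · exact h p hp
      · exact h' p hp
    · rintro ⟨ps, h, h0⟩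
      exact step2 hW hc hb X hX ps (fun p hp => (h p hp).1) (fun p hp => (h p hp).2) h0.symm
  obtain ⟨F, hF1, hF2⟩ := zorn_subset_nonempty Z (by
    intro C hC hchain hne
    refine ⟨⋃₀ C, ⟨?_, ?_, ?_, ?_⟩, fun s hs => Set.subset_sUnion_of_mem hs⟩
    · rintro p ⟨s, hs, hp⟩
      exact (hC hs).1 p hp
    · obtain ⟨s, hs⟩ := hne
      exact ⟨s, hs, (hC hs).2.1⟩
    · rintro p ⟨s, hs, hp⟩ q ⟨t, ht, hq⟩
      rcases hchain.total hs ht with h | h
      · exact ⟨t, ht, (hC ht).2.2.1 p (h hp) q hq⟩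
      · exact ⟨s, hs, (hC hs).2.2.1 p hp q (h hq)⟩
    · rintro ⟨s, hs, h0⟩
      exact (hC hs).2.2.2 h0) S0 hS0
  obtain ⟨f1, f2, f3, f4⟩ := hF2.prop
  -- if `p ∉ F`, some `q ∈ F` has `q p = 0`
  have key : ∀ p : A, CPg p → p ∉ F → ∃ q ∈ F, q * p = 0 := by
    intro p hp hpF
    by_contra hcon
    push Not at hcon
    let F' : Set A := F ∪ {x | ∃ q ∈ F, x = q * p}
    have hF' : F' ∈ Z := by
      refine ⟨?_, Or.inl f2, ?_, ?_⟩
      · rintro x (hx | ⟨q, hq, rfl⟩)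
        · exact f1 x hx
        · exact (f1 q hq).mul hp
      · rintro x (hx | ⟨q, hq, rfl⟩) y (hy | ⟨q', hq', rfl⟩)
        · exact Or.inl (f3 x hx y hy)
        · exact Or.inr ⟨x * q', f3 x hx q' hq', by rw [mul_assoc]⟩
        · exact Or.inr ⟨q * y, f3 q hq y hy, by rw [mul_assoc, mul_assoc, hp.2.2 y]⟩
        · refine Or.inr ⟨q * q', f3 q hq q' hq', ?_⟩
          calc q * p * (q' * p) = q * (p * q') * p := by noncomm_ring
            _ = q * (q' * p) * p := by rw [hp.2.2 q']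
            _ = q * q' * (p * p) := by noncomm_ring
            _ = q * q' * p := by rw [hp.2.1]
      · rintro (h0 | ⟨q, hq, h0⟩)
        · exact f4 h0
        · exact hcon q hq h0.symm
    have hsub : F' ⊆ F := hF2.le_of_ge hF' Set.subset_union_left
    exact hpF (hsub (Or.inr ⟨1, f2, by rw [one_mul]⟩))
  refine ⟨F, f1, f2, f3, ?_, f4, ?_⟩
  · intro p hp
    by_contra hcon
    push Not at hcon
    obtain ⟨q, hq, h1⟩ := key p hp hcon.1
    obtain ⟨q', hq', h2⟩ := key (1 - p) hp.one_sub hcon.2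
    apply f4
    have e : q * q' = 0 := by
      calc q * q' = q' * (q * p) + q * (q' * (1 - p)) := by
            have : q' * (q * p) = q * (q' * p) := by
              rw [← mul_assoc, ← mul_assoc, (f1 q hq).2.2 q']
            rw [this, mul_sub, mul_one, mul_sub]
            abel
        _ = 0 := by rw [h1, h2, mul_zero, mul_zero, add_zero]
    rw [← e]
    exact f3 q hq q' hq'
  · intro p hp
    by_contra hcon
    push Not at hcon
    have hcp := f1 p hp
    have h1 : 1 - p ∈ F := by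
      apply hF1
      exact ⟨[p], by simpa using ⟨hcp, hcon⟩, by simp [rem]⟩
    have h2 := f3 p hp _ h1
    rw [mul_sub, mul_one, hcp.2.1, sub_self] at h2
    exact f4 h2

end gen

end AULT

theorem prove_ult : H_ult := by
  intro L _ _ _ M H _ _ _ W hW c hc hb m X hX
  obtain ⟨F, h1, h2, h3, h4, h5, h6⟩ := AULT.ult_gen hW (zero_le_one.trans hc) hb X hX
  exact ⟨F, ⟨h1, h2, h3, h4, h5⟩, h6⟩

end H770R2.Kad
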